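import Pool.Agent.helper81.NW.Spec

set_option autoImplicit false

namespace Pool.Agent.helper81.NW

open Pool.Agent.helper84.NR
open scoped Classical
open Finset

section
variable {V F : Type}

private lemma VRI_inj (hIDX : IDX_stmt) (M : PMap V F) (z : V) (A : F) (a b : ℕ) (ha : a < M.len A)
    (hb : b < M.len A) (h : ww M z A a = ww M z A b) : a = b :=
  (hIDX V F M.toCyc A (st M z A)).1 a b ha hb h

private lemma VRI_surj (hIDX : IDX_stmt) (M : PMap V F) (z : V) (A : F) (v : V)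
    (h : OnV M.toCyc A v) : ∃ a, a < M.len A ∧ ww M z A a = v :=
  (hIDX V F M.toCyc A (st M z A)).2.1 v h

private lemma VRI_edge (hIDX : IDX_stmt) (M : PMap V F) (z : V) (A : F) (e : Sym2 V)
    (h : OnE M.toCyc A e) : ∃ a, a < M.len A ∧ e = s(ww M z A a, ww M z A (a + 1)) :=
  (hIDX V F M.toCyc A (st M z A)).2.2.1 e h

private lemma VRI_chord (hIDX : IDX_stmt) (M : PMap V F) (z : V) (A : F) (a b : ℕ) (hab : a < b)
    (hb : b < M.len A) (h : OnE M.toCyc A s(ww M z A a, ww M z A b)) :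
    b = a + 1 ∨ (a = 0 ∧ b = M.len A - 1) :=
  (hIDX V F M.toCyc A (st M z A)).2.2.2.1 a b hab hb h

private lemma VRI_same (hEDG : EDG_stmt) (M : PMap V F) (x : V) (A A' : F) (e : Sym2 V)
    (hx : x ∉ e) (h1 : OnV M.toCyc A x) (h2 : OnV M.toCyc A' x) (h3 : OnE M.toCyc A e)
    (h4 : OnE M.toCyc A' e) : A = A' := by
  by_contra hne
  obtain ⟨k, hk⟩ := h3
  have h3 : OnE M.toCyc A s(M.bd A k, M.bd A (k + 1)) := ⟨k, rfl⟩
  rw [hk] at h4 hx
  obtain ⟨a1, a2, a3⟩ := (hEDG V F M).1 A _ _ h3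
  obtain ⟨b1, b2, -⟩ := (hEDG V F M).1 A' _ _ h4
  rcases (M.poly A A' hne _ _ a3 a1 a2 b1 b2).2.2 x h1 h2 with h | h
  · exact hx (by rw [h]; exact Sym2.mem_mk_left _ _)
  · exact hx (by rw [h]; exact Sym2.mem_mk_right _ _)

private lemma VRI_mem (M : PMap V F) (f : F) (e : Sym2 V) (v : V) (hv : v ∈ e)
    (h : OnE M.toCyc f e) : OnV M.toCyc f v := by
  obtain ⟨k, rfl⟩ := h
  rcases Sym2.mem_iff.1 hv with h | h
  · exact ⟨k, h.symm⟩
  · exact ⟨k + 1, h.symm⟩

/-- an edge of `B` at a vertex strictly inside the segment is an edge of the segment -/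
private lemma VRI_seg (hIDX : IDX_stmt) (hWW0 : WW0_stmt) (M : PMap V F) (x y v : V) (B : F)
    (hB : OnV M.toCyc B y) (hvy : v ≠ y) (k k' k'' : ℕ) (hk : sh M x y B k) (hv : ww M y B k = v)
    (hk' : sh M x y B k') (hlt' : k' < k) (hk'' : sh M x y B k'') (hlt'' : k < k'')
    (e : Sym2 V) (he : OnE M.toCyc B e) (hve : v ∈ e) : sgE M x y e := by
  obtain ⟨a, ha, rfl⟩ := VRI_edge hIDX M y B e he
  rcases Sym2.mem_iff.1 hve with h | h
  · have hak : k = a := VRI_inj hIDX M y B k a hk.2.1 ha (hv.trans h)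
    subst hak
    exact ⟨B, hB, k, ⟨⟨k, le_rfl, hk⟩, k'', hlt'', hk''⟩, rfl⟩
  · rcases Nat.lt_or_ge (a + 1) (M.len B) with h1 | h1
    · have hak : k = a + 1 := VRI_inj hIDX M y B k (a + 1) hk.2.1 h1 (hv.trans h)
      subst hak
      exact ⟨B, hB, a, ⟨⟨k', by omega, hk'⟩, a + 1, by omega, hk⟩, rfl⟩
    · exfalso
      have h2 : a + 1 = M.len B := by omega
      rw [h2, (hWW0 V F M y B hB).2] at h
      exact hvy h

end

private lemma VRI_A {V F : Type} [Fintype V] [Fintype F] (hIDX : IDX_stmt) (hEDG : EDG_stmt)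
    (hWW0 : WW0_stmt) (hINT : INT_stmt) (M : PMap V F) (x y v : V)
    (hne : ∀ f, ¬ (OnV M.toCyc f x ∧ OnV M.toCyc f y)) :
    rr M x y v ≤ ((univ.filter (fun e : Sym2 V => v ∈ e ∧ x ∉ e ∧
      ∃ A, OnV M.toCyc A x ∧ OnE M.toCyc A e)).filter (fun e => ¬ UU M x y e)).card := by
  set T := (univ.filter (fun e : Sym2 V => v ∈ e ∧ x ∉ e ∧
      ∃ A, OnV M.toCyc A x ∧ OnE M.toCyc A e)).filter (fun e => ¬ UU M x y e) with hT
  set idx : F → ℕ := fun A => if h : ∃ i, i < M.len A ∧ ww M x A i = v then h.choose else 0 with hidxdef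
  have hidx : ∀ A i, i < M.len A → ww M x A i = v → idx A = i := by
    intro A i hi hv
    have h : ∃ i, i < M.len A ∧ ww M x A i = v := ⟨i, hi, hv⟩
    have h1 : idx A = h.choose := dif_pos h
    rw [h1]
    exact VRI_inj hIDX M x A _ _ h.choose_spec.1 hi (h.choose_spec.2.trans hv.symm)
  set e1 : F → Sym2 V := fun A => s(ww M x A (idx A - 1), ww M x A (idx A)) with he1
  set e2 : F → Sym2 V := fun A => s(ww M x A (idx A), ww M x A (idx A + 1)) with he2
  set F1 : Finset F := univ.filter (fun A => OnV M.toCyc A x ∧ ∃ i, fst M y x A i ∧ i ≠ 1 ∧ ww M x A i = v) with hF1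
  set F2 : Finset F := univ.filter (fun A => OnV M.toCyc A x ∧ ∃ i, lst M y x A i ∧ i + 1 ≠ M.len A ∧
    ww M x A i = v) with hF2
  have k1 : ∀ A ∈ F1, OnV M.toCyc A x ∧ x ∉ e1 A ∧ OnE M.toCyc A (e1 A) ∧ e1 A ∈ T ∧
      2 ≤ idx A ∧ idx A < M.len A := by
    intro A hA
    rw [hF1, mem_filter] at hA
    obtain ⟨-, hAx, i, ⟨hs, hmin⟩, hi1, hiv⟩ := hA
    have hi : idx A = i := hidx A i hs.2.1 hiv
    have h1i := hs.1
    have hil := hs.2.1
    have hw0 := (hWW0 V F M x A hAx).1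
    have hEq : e1 A = s(ww M x A (i - 1), ww M x A i) := by
      simp only [he1, hi]
    have hxe : x ∉ e1 A := by
      rw [hEq]
      intro h
      rcases Sym2.mem_iff.1 h with h | h
      · have := VRI_inj hIDX M x A 0 (i - 1) (by omega) (by omega) (hw0.trans h)
        omega
      · have := VRI_inj hIDX M x A 0 i (by omega) (by omega) (hw0.trans h)
        omega
    have hOn : OnE M.toCyc A (e1 A) := by
      rw [hEq]
      refine ⟨st M x A + (i - 1), ?_⟩
      have : st M x A + (i - 1) + 1 = st M x A + i := by omega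
      rw [this]
      rfl
    refine ⟨hAx, hxe, hOn, ?_, by omega, by omega⟩
    rw [hT, mem_filter, mem_filter]
    refine ⟨⟨mem_univ _, ?_, hxe, A, hAx, hOn⟩, ?_⟩
    · rw [hEq, hiv]
      exact Sym2.mem_mk_right _ _
    · rintro (hU | hU)
      · obtain ⟨-, -, ⟨B, hB1, hB2⟩, -⟩ := (hINT V F M x y hne).2.2 _ hU
        have hs' : sh M y x A (i - 1) := by
          refine ⟨by omega, by omega, B, hB1, VRI_mem M B _ _ ?_ hB2⟩
          rw [hEq]
          exact Sym2.mem_mk_left _ _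
        have := hmin _ hs'
        omega
      · obtain ⟨A', hA', j, hj, he⟩ := hU
        have hE' : OnE M.toCyc A' (e1 A) := by
          rw [he]
          exact ⟨st M x A' + j, rfl⟩
        have hAA : A = A' := VRI_same hEDG M x A A' _ hxe hAx hA' hOn hE'
        subst hAA
        obtain ⟨⟨a, ha, hsa⟩, b, hb, hsb⟩ := hj
        have h5 := hmin a hsa
        have h6 := hsb.2.1
        have hm : ww M x A (i - 1) ∈ s(ww M x A j, ww M x A (j + 1)) := by
          rw [← he, hEq]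
          exact Sym2.mem_mk_left _ _
        rcases Sym2.mem_iff.1 hm with h | h
        · have := VRI_inj hIDX M x A _ _ (by omega) (by omega) h
          omega
        · have := VRI_inj hIDX M x A _ _ (by omega) (by omega) h
          omega
  have k2 : ∀ A ∈ F2, OnV M.toCyc A x ∧ x ∉ e2 A ∧ OnE M.toCyc A (e2 A) ∧ e2 A ∈ T ∧
      1 ≤ idx A ∧ idx A + 1 < M.len A := by
    intro A hA
    rw [hF2, mem_filter] at hA
    obtain ⟨-, hAx, i, ⟨hs, hmax⟩, hi1, hiv⟩ := hA
    have hi : idx A = i := hidx A i hs.2.1 hiv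
    have h1i := hs.1
    have hil := hs.2.1
    have hw0 := (hWW0 V F M x A hAx).1
    have hEq : e2 A = s(ww M x A i, ww M x A (i + 1)) := by
      simp only [he2, hi]
    have hxe : x ∉ e2 A := by
      rw [hEq]
      intro h
      rcases Sym2.mem_iff.1 h with h | h
      · have := VRI_inj hIDX M x A 0 i (by omega) (by omega) (hw0.trans h)
        omega
      · have := VRI_inj hIDX M x A 0 (i + 1) (by omega) (by omega) (hw0.trans h)
        omega
    have hOn : OnE M.toCyc A (e2 A) := by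
      rw [hEq]
      exact ⟨st M x A + i, rfl⟩
    refine ⟨hAx, hxe, hOn, ?_, by omega, by omega⟩
    rw [hT, mem_filter, mem_filter]
    refine ⟨⟨mem_univ _, ?_, hxe, A, hAx, hOn⟩, ?_⟩
    · rw [hEq, hiv]
      exact Sym2.mem_mk_left _ _
    · rintro (hU | hU)
      · obtain ⟨-, -, ⟨B, hB1, hB2⟩, -⟩ := (hINT V F M x y hne).2.2 _ hU
        have hs' : sh M y x A (i + 1) := by
          refine ⟨by omega, by omega, B, hB1, VRI_mem M B _ _ ?_ hB2⟩
          rw [hEq]
          exact Sym2.mem_mk_right _ _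
        have := hmax _ hs'
        omega
      · obtain ⟨A', hA', j, hj, he⟩ := hU
        have hE' : OnE M.toCyc A' (e2 A) := by
          rw [he]
          exact ⟨st M x A' + j, rfl⟩
        have hAA : A = A' := VRI_same hEDG M x A A' _ hxe hAx hA' hOn hE'
        subst hAA
        obtain ⟨⟨a, ha, hsa⟩, b, hb, hsb⟩ := hj
        have h5 := hmax b hsb
        have h6 := hsb.2.1
        have hm : ww M x A (i + 1) ∈ s(ww M x A j, ww M x A (j + 1)) := by
          rw [← he, hEq]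
          exact Sym2.mem_mk_right _ _
        rcases Sym2.mem_iff.1 hm with h | h
        · have := VRI_inj hIDX M x A _ _ (by omega) (by omega) h
          omega
        · have := VRI_inj hIDX M x A _ _ (by omega) (by omega) h
          omega
  have inj1 : Set.InjOn e1 (F1 : Set F) := by
    intro A hA A' hA' h
    obtain ⟨a1, a2, a3, -⟩ := k1 A hA
    obtain ⟨b1, b2, b3, -⟩ := k1 A' hA'
    exact VRI_same hEDG M x A A' _ a2 a1 b1 a3 (h ▸ b3)
  have inj2 : Set.InjOn e2 (F2 : Set F) := by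
    intro A hA A' hA' h
    obtain ⟨a1, a2, a3, -⟩ := k2 A hA
    obtain ⟨b1, b2, b3, -⟩ := k2 A' hA'
    exact VRI_same hEDG M x A A' _ a2 a1 b1 a3 (h ▸ b3)
  have hdis : Disjoint (F1.image e1) (F2.image e2) := by
    rw [Finset.disjoint_left]
    intro e h1 h2
    obtain ⟨A, hA, rfl⟩ := mem_image.1 h1
    obtain ⟨A', hA', h⟩ := mem_image.1 h2
    obtain ⟨a1, a2, a3, -, a5, a6⟩ := k1 A hA
    obtain ⟨b1, b2, b3, -, b5, b6⟩ := k2 A' hA'
    have hAA : A = A' := VRI_same hEDG M x A A' _ a2 a1 b1 a3 (h ▸ b3)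
    subst hAA
    have hm : ww M x A (idx A - 1) ∈ s(ww M x A (idx A), ww M x A (idx A + 1)) := by
      have h' : e2 A = e1 A := h
      simp only [he1, he2] at h'
      rw [h']
      exact Sym2.mem_mk_left _ _
    rcases Sym2.mem_iff.1 hm with h | h
    · have := VRI_inj hIDX M x A _ _ (by omega) (by omega) h
      omega
    · have := VRI_inj hIDX M x A _ _ (by omega) (by omega) h
      omega
  have hsub : F1.image e1 ∪ F2.image e2 ⊆ T := by
    intro e he
    rcases mem_union.1 he with h | h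
    · obtain ⟨A, hA, rfl⟩ := mem_image.1 h
      exact (k1 A hA).2.2.2.1
    · obtain ⟨A, hA, rfl⟩ := mem_image.1 h
      exact (k2 A hA).2.2.2.1
  have hrr : rr M x y v = F1.card + F2.card := rfl
  rw [hrr, ← card_image_of_injOn inj1, ← card_image_of_injOn inj2, ← card_union_of_disjoint hdis]
  exact card_le_card hsub

theorem VRI (hIDX : IDX_stmt) (hEDG : EDG_stmt) (hDEG : DEG_stmt) (hPAR : PAR_stmt) (hWW0 : WW0_stmt)
    (hINT : INT_stmt) : VRI_stmt := by
  intro V F _ _ M x y hW v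
  have hne := hW.ne
  have hne' : ∀ f, ¬ (OnV M.toCyc f y ∧ OnV M.toCyc f x) := fun f h => hne f ⟨h.2, h.1⟩
  rcases Nat.eq_zero_or_pos (rr M x y v) with h0 | hpos
  · rw [h0]
    exact Nat.zero_le _
  -- an extreme index
  obtain ⟨A, hAx, i, hext, hiv⟩ : ∃ A, OnV M.toCyc A x ∧ ∃ i, ext M y x A i ∧ ww M x A i = v := by
    unfold rr at hpos
    rcases Nat.eq_zero_or_pos (univ.filter (fun A => OnV M.toCyc A x ∧ ∃ i, fst M y x A i ∧ i ≠ 1 ∧
      ww M x A i = v)).card with h1 | h1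
    · rw [h1, Nat.zero_add] at hpos
      obtain ⟨A, hA⟩ := card_pos.1 hpos
      obtain ⟨-, hAx, i, h2, -, h3⟩ := mem_filter.1 hA
      exact ⟨A, hAx, i, Or.inr h2, h3⟩
    · obtain ⟨A, hA⟩ := card_pos.1 h1
      obtain ⟨-, hAx, i, h2, -, h3⟩ := mem_filter.1 hA
      exact ⟨A, hAx, i, Or.inl h2, h3⟩
  have hsh : sh M y x A i := by
    rcases hext with h | h
    · exact h.1
    · exact h.1
  have hAv : OnV M.toCyc A v := hiv ▸ ⟨st M x A + i, rfl⟩
  obtain ⟨B, hBy, hBv'⟩ := hsh.2.2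
  have hBv : OnV M.toCyc B v := hiv ▸ hBv'
  have hvy : v ≠ y := by
    rintro rfl
    exact hne A ⟨hAx, hAv⟩
  have hvx : v ≠ x := by
    rintro rfl
    exact hne B ⟨hBv, hBy⟩
  have hshv : shv M x y v := ⟨⟨A, hAx, hAv⟩, B, hBy, hBv⟩
  obtain ⟨k, hkl, hkv⟩ := VRI_surj hIDX M y B v hBv
  have hk1 : 1 ≤ k := by
    rcases Nat.eq_zero_or_pos k with h | h
    · exfalso
      rw [h, (hWW0 V F M y B hBy).1] at hkv
      exact hvy hkv.symm
    · exact h
  have hshk : sh M x y B k := ⟨hk1, hkl, A, hAx, hkv.symm ▸ hAv⟩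
  have hnext : ¬ ext M x y B k := by
    intro h
    exact hW.wb A B i k hAx hBy hext h (hiv.symm ▸ hBv) (hkv.symm ▸ hAv)
  obtain ⟨k', hk', hlt'⟩ : ∃ k', sh M x y B k' ∧ k' < k := by
    by_contra hcon
    push Not at hcon
    exact hnext (Or.inl ⟨hshk, hcon⟩)
  obtain ⟨k'', hk'', hlt''⟩ : ∃ k'', sh M x y B k'' ∧ k < k'' := by
    by_contra hcon
    push Not at hcon
    exact hnext (Or.inr ⟨hshk, hcon⟩)
  have h1' := hk'.1
  have hl'' := hk''.2.1
  have hnadj : ¬ Adj M.toCyc y v := by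
    intro h
    have hE : OnE M.toCyc B s(y, v) := (hEDG V F M).2 B y v h hBy hBv
    rw [← (hWW0 V F M y B hBy).1, ← hkv] at hE
    have hE' : OnE M.toCyc B s(ww M y B 0, ww M y B k) := by
      rw [(hWW0 V F M y B hBy).1] at hE ⊢
      exact hE
    rcases VRI_chord hIDX M y B 0 k (by omega) hkl hE' with h | h
    · omega
    · omega
  have huniq : ∀ g, OnV M.toCyc g y → OnV M.toCyc g v → g = B := fun g h1 h2 =>
    (hDEG V F M y).1 v g B hvy hnadj h1 h2 hBy hBv
  -- the set S and its separating edges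
  set S : Set F := {g | ¬ OnV M.toCyc g y ∧ CL M x y g A} with hS
  have hAS : A ∈ S := ⟨fun h => hne A ⟨hAx, h⟩, rfl⟩
  have hBS : B ∉ S := fun h => h.1 hBy
  set Sep := univ.filter (fun e : Sym2 V => v ∈ e ∧ (∃ f, OnE M.toCyc f e ∧ f ∈ S) ∧
    ∃ g, OnE M.toCyc g e ∧ g ∉ S) with hSep
  set E2 := univ.filter (fun e : Sym2 V => v ∈ e ∧ x ∉ e ∧
      ∃ A, OnV M.toCyc A x ∧ OnE M.toCyc A e) with hE2
  have hE2c : E2.card = 2 := (hDEG V F M x).2.2.2.2 v hvx ⟨A, hAx, hAv⟩
  have heven : Even Sep.card := by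
    obtain ⟨r, hr⟩ := hPAR V F M S v
    refine ⟨r, ?_⟩
    rw [← hr]
    refine congrArg Finset.card ?_
    ext e
    simp only [hSep, mem_filter]
  have hSne : Sep.Nonempty := by
    by_contra hcon
    rw [Finset.not_nonempty_iff_eq_empty] at hcon
    refine hBS (M.link v S ?_ A B hAv hBv hAS)
    intro e hve f g hf hg hfS
    by_contra hgS
    have : e ∈ Sep := mem_filter.2 ⟨mem_univ _, hve, ⟨f, hf, hfS⟩, g, hg, hgS⟩
    rw [hcon] at this
    exact absurd this (Finset.notMem_empty e)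
  have hS2 : 2 ≤ Sep.card := by
    have h1 := card_pos.2 hSne
    obtain ⟨r, hr⟩ := heven
    omega
  have hUU : ∀ e ∈ Sep, UU M x y e := by
    intro e he
    obtain ⟨-, hve, ⟨f, hf, hfS⟩, g, hg, hgS⟩ := mem_filter.1 he
    by_contra hU
    have hcl : (Quot.mk (lk M (UU M x y)) f : Quot (lk M (UU M x y))) = Quot.mk _ g :=
      Quot.sound ⟨e, hU, hf, hg⟩
    have hgy : OnV M.toCyc g y := by
      by_contra hgy
      exact hgS ⟨hgy, hcl.symm.trans hfS.2⟩
    have hgB : g = B := huniq g hgy (VRI_mem M g e v hve hg)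
    rw [hgB] at hg
    exact hU (Or.inl (VRI_seg hIDX hWW0 M x y v B hBy hvy k k' k'' hshk hkv hk' hlt' hk'' hlt'' e hg hve))
  have hin1 : Sep.filter (fun e => e ∉ E2) ⊆ HX M x y v := by
    intro e he
    obtain ⟨heS, heE⟩ := mem_filter.1 he
    have hU := hUU e heS
    obtain ⟨-, hve, ⟨f, hf, hfS⟩, -⟩ := mem_filter.1 heS
    rcases hU with hU | hU
    · obtain ⟨hxe, -⟩ := (hINT V F M x y hne).2.2 e hU
      have hnF : ¬ onF M x e := by
        intro h
        exact heE (mem_filter.2 ⟨mem_univ _, hve, hxe, h⟩)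
      exact mem_filter.2 ⟨mem_univ _, hshv, hve, hU, hnF, f, A, hf, hfS.1, hAx, hfS.2⟩
    · exfalso
      obtain ⟨-, hxe, hF, -⟩ := (hINT V F M y x hne').2.2 e hU
      exact heE (mem_filter.2 ⟨mem_univ _, hve, hxe, hF⟩)
  have hin2 : Sep.filter (fun e => ¬ e ∉ E2) ⊆ E2.filter (fun e => UU M x y e) := by
    intro e he
    obtain ⟨heS, heE⟩ := mem_filter.1 he
    exact mem_filter.2 ⟨not_not.1 heE, hUU e heS⟩
  have hA := VRI_A hIDX hEDG hWW0 hINT M x y v hne
  have hc1 := card_le_card hin1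
  have hc2 := card_le_card hin2
  have hc3 := Finset.card_filter_add_card_filter_not (s := Sep) (fun e => e ∉ E2)
  have hc4 := Finset.card_filter_add_card_filter_not (s := E2) (fun e => UU M x y e)
  have hA' : rr M x y v ≤ (E2.filter (fun e => ¬ UU M x y e)).card := hA
  omega

end Pool.Agent.helper81.NW
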